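import Pool.Agent.R461.MF.Int

/-! # Weyl sums at almost all points of a measure with Fourier decay -/

set_option autoImplicit false

open Finset MeasureTheory Filter Topology

namespace Pool.Agent.R461.MF

open Pool.Agent.W928.MW (e prs e_add e_norm e_cont)
open Pool.Agent.TH181.MX (max_pt wt wt_nonneg wt_sum)

/-- incomplete sums and all linear coefficients -/
theorem sup_max {k N M : ℕ} (hN : 1 ≤ N) (hM : M ≤ N) (c : ℕ → ℂ) (t ξ : ℝ) :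
    ‖sc k M c t ξ‖ ^ 4 ≤ (2 + Real.log N) ^ 4 * ((2 * (N : ℝ) + 1) * Qc k N c t) := by
  set G : ℝ := (2 * (N : ℝ) + 1) * Qc k N c t with hG
  have hG0 : 0 ≤ G := mul_nonneg (by positivity) (Qc_nonneg k N c t)
  have h1 : ∀ η : ℝ, ‖sc k N c t η‖ ≤ √(√G) := by
    intro η
    refine Real.le_sqrt_of_sq_le (Real.le_sqrt_of_sq_le ?_)
    have h2 := sup4 k N c t η
    calc (‖sc k N c t η‖ ^ 2) ^ 2 = ‖sc k N c t η‖ ^ 4 := by ring
      _ ≤ G := h2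
  have h2 : ∀ (L : ℕ) (η : ℝ), sc k L c t η =
      ∑ n ∈ Icc 1 L, (c n * e (t * (n : ℝ) ^ k)) * e (η * (n : ℝ)) := by
    intro L η
    unfold sc
    refine Finset.sum_congr rfl fun n _ => ?_
    rw [e_add, mul_assoc]
  have h3 := max_pt N M hN hM (fun n => c n * e (t * (n : ℝ) ^ k)) ξ
  have hlog : 0 ≤ Real.log N := Real.log_natCast_nonneg N
  have h4 : ‖sc k M c t ξ‖ ≤ (2 + Real.log N) * √(√G) := by
    rw [h2]
    refine h3.trans ?_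
    calc _ ≤ ∑ b ∈ range N, wt N b * √(√G) := by
          refine Finset.sum_le_sum fun b hb => ?_
          rw [← h2]
          exact mul_le_mul_of_nonneg_left (h1 _) (wt_nonneg N b (Finset.mem_range.1 hb))
      _ = (∑ b ∈ range N, wt N b) * √(√G) := by rw [Finset.sum_mul]
      _ ≤ _ := mul_le_mul_of_nonneg_right (wt_sum N hN) (Real.sqrt_nonneg _)
  calc ‖sc k M c t ξ‖ ^ 4 ≤ ((2 + Real.log N) * √(√G)) ^ 4 := pow_le_pow_left₀ (norm_nonneg _) h4 4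
    _ = (2 + Real.log N) ^ 4 * (√(√G) ^ 2) ^ 2 := by ring
    _ = _ := by rw [Real.sq_sqrt (Real.sqrt_nonneg _), Real.sq_sqrt hG0]

section
variable {μ : Measure ℝ} [IsProbabilityMeasure μ] {k : ℕ} {K s : ℝ} {c : ℕ → ℂ}

theorem Qc_integrable (k N : ℕ) (hc : ∀ n, ‖c n‖ ≤ 1) : Integrable (Qc k N c) μ := by
  refine Integrable.of_bound (Qc_cont k N c).aestronglyMeasurable
    (∑ m ∈ range (2 * N + 1), ((prs N m).card : ℝ) ^ 2) ?_
  filter_upwards with t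
  rw [Real.norm_eq_abs, abs_of_nonneg (Qc_nonneg k N c t)]
  unfold Qc
  refine Finset.sum_le_sum fun m _ => ?_
  refine pow_le_pow_left₀ (norm_nonneg _) ?_ 2
  unfold pc
  refine (norm_sum_le _ _).trans ?_
  calc _ ≤ ∑ z ∈ prs N m, (1 : ℝ) := Finset.sum_le_sum fun z _ => by
        rw [norm_mul, norm_mul, e_norm, mul_one]
        exact mul_le_one₀ (hc _) (norm_nonneg _) (hc _)
    _ = _ := by rw [Finset.sum_const, nsmul_eq_mul, mul_one]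

/-- **The measure of the large values.** -/
theorem meas_large (hk : 2 ≤ k) (hK : 0 ≤ K) (hs : 0 < s) (hs1 : s ≤ 1 / k) (hd : Dec μ K s)
    (hc : ∀ n, ‖c n‖ ≤ 1) {N : ℕ} (hN : 1 ≤ N) {V : ℝ} (hV : 0 < V) :
    μ {t : ℝ | ∃ (M : ℕ) (ξ : ℝ), M ≤ N ∧ V < ‖sc k M c t ξ‖} ≤
      ENNReal.ofReal ((6 + 24 * k * K) * (2 + Real.log N) ^ 4 * (N : ℝ) ^ (4 - k * s) / V ^ 4) := by
  set f : ℝ → ℝ := fun t => (2 + Real.log N) ^ 4 * ((2 * (N : ℝ) + 1) * Qc k N c t) with hf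
  have hlog : 0 ≤ Real.log N := Real.log_natCast_nonneg N
  have hf0 : ∀ t, 0 ≤ f t := fun t =>
    mul_nonneg (by positivity) (mul_nonneg (by positivity) (Qc_nonneg k N c t))
  have hfi : Integrable f μ := ((Qc_integrable k N hc).const_mul _).const_mul _
  have h1 : {t : ℝ | ∃ (M : ℕ) (ξ : ℝ), M ≤ N ∧ V < ‖sc k M c t ξ‖} ⊆ {t | V ^ 4 ≤ f t} := by
    rintro t ⟨M, ξ, hM, hV2⟩
    have h2 := sup_max (k := k) hN hM c t ξ
    have h3 : V ^ 4 ≤ ‖sc k M c t ξ‖ ^ 4 := pow_le_pow_left₀ hV.le hV2.le 4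
    exact h3.trans h2
  refine (measure_mono h1).trans ?_
  have h2 := mul_meas_ge_le_integral_of_nonneg (μ := μ) (f := f)
    (Filter.Eventually.of_forall hf0) hfi (V ^ 4)
  have h3 : ∫ t, f t ∂μ ≤ (2 + Real.log N) ^ 4 * ((6 + 24 * k * K) * (N : ℝ) ^ (4 - k * s)) := by
    rw [hf, integral_const_mul]
    exact mul_le_mul_of_nonneg_left (moment hk hK hs hs1 hd hN hc) (by positivity)
  have hV4 : 0 < V ^ 4 := by positivity
  have h4 : μ.real {t | V ^ 4 ≤ f t} ≤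
      (6 + 24 * k * K) * (2 + Real.log N) ^ 4 * (N : ℝ) ^ (4 - k * s) / V ^ 4 := by
    rw [le_div_iff₀ hV4]
    calc μ.real {t | V ^ 4 ≤ f t} * V ^ 4 = V ^ 4 * μ.real {t | V ^ 4 ≤ f t} := mul_comm _ _
      _ ≤ ∫ t, f t ∂μ := h2
      _ ≤ _ := h3
      _ = _ := by ring
  rw [← ENNReal.ofReal_toReal (measure_ne_top μ {t | V ^ 4 ≤ f t})]
  exact ENNReal.ofReal_le_ofReal h4

theorem log_two_pow (J : ℕ) : Real.log ((2 ^ J : ℕ) : ℝ) ≤ J := by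
  push_cast
  rw [Real.log_pow]
  have h1 : Real.log 2 ≤ 1 := by
    have := Real.log_le_sub_one_of_pos (show (0 : ℝ) < 2 by norm_num)
    linarith
  calc (J : ℝ) * Real.log 2 ≤ J * 1 := mul_le_mul_of_nonneg_left h1 (Nat.cast_nonneg _)
    _ = J := mul_one _

/-- **Almost all points, one exponent.** -/
theorem ae_one (hk : 2 ≤ k) (hK : 0 ≤ K) (hs : 0 < s) (hs1 : s ≤ 1 / k) (hd : Dec μ K s)
    (hc : ∀ n, ‖c n‖ ≤ 1) {ε : ℝ} (hε : 0 < ε) :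
    ∀ᵐ t ∂μ, ∃ C : ℝ, ∀ N : ℕ, 1 ≤ N → ∀ ξ : ℝ,
      ‖sc k N c t ξ‖ ≤ C * (N : ℝ) ^ (1 - k * s / 4 + ε) := by
  have hk0 : (0 : ℝ) < k := by
    have : 0 < k := by omega
    exact_mod_cast this
  have hks : k * s ≤ 1 := by
    rw [le_div_iff₀ hk0] at hs1
    linarith
  set a : ℝ := 1 - k * s / 4 + ε with ha
  have ha0 : 0 ≤ a := by
    rw [ha]
    linarith
  set B : ℕ → Set ℝ := fun J => {t : ℝ | ∃ (M : ℕ) (ξ : ℝ), M ≤ 2 ^ J ∧
    (((2 ^ J : ℕ) : ℝ)) ^ a < ‖sc k M c t ξ‖} with hB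
  set r : ℝ := (2 : ℝ) ^ (-(4 * ε)) with hr
  have hr0 : 0 < r := by positivity
  have hr1 : r < 1 := by
    rw [hr]
    exact Real.rpow_lt_one_of_one_lt_of_neg (by norm_num) (by linarith)
  have hbound : ∀ J, μ (B J) ≤
      ENNReal.ofReal ((6 + 24 * k * K) * ((128 + 8 * (J : ℝ) ^ 4) * r ^ J)) := by
    intro J
    have h2J : (0 : ℝ) < ((2 ^ J : ℕ) : ℝ) := by positivity
    have h1 := meas_large (μ := μ) hk hK hs hs1 hd hc (N := 2 ^ J) Nat.one_le_two_pow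
      (V := (((2 ^ J : ℕ) : ℝ)) ^ a) (by positivity)
    refine h1.trans (ENNReal.ofReal_le_ofReal ?_)
    have h2 : (((2 ^ J : ℕ) : ℝ)) ^ (4 - k * s) / ((((2 ^ J : ℕ) : ℝ)) ^ a) ^ 4 = r ^ J := by
      rw [← Real.rpow_natCast ((((2 ^ J : ℕ) : ℝ)) ^ a) 4, ← Real.rpow_mul h2J.le,
        ← Real.rpow_sub h2J, hr, ← Real.rpow_natCast _ J, ← Real.rpow_mul (by norm_num)]
      push_cast
      rw [← Real.rpow_natCast, ← Real.rpow_mul (by norm_num)]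
      congr 1
      rw [ha]
      ring
    have h3 : (2 + Real.log (((2 ^ J : ℕ) : ℝ))) ^ 4 ≤ 128 + 8 * (J : ℝ) ^ 4 := by
      have hl := log_two_pow J
      have hl0 : 0 ≤ Real.log (((2 ^ J : ℕ) : ℝ)) := Real.log_natCast_nonneg _
      have hJ0 : (0 : ℝ) ≤ J := Nat.cast_nonneg _
      have h4 : (2 + Real.log (((2 ^ J : ℕ) : ℝ))) ^ 4 ≤ (2 + (J : ℝ)) ^ 4 :=
        pow_le_pow_left₀ (by linarith) (by linarith) 4
      refine h4.trans ?_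
      nlinarith [sq_nonneg ((J : ℝ) - 2), sq_nonneg ((J : ℝ) ^ 2 - 4), sq_nonneg ((J : ℝ) * (J - 2)),
        mul_nonneg hJ0 (sq_nonneg ((J : ℝ) - 2))]
    calc (6 + 24 * k * K) * (2 + Real.log (((2 ^ J : ℕ) : ℝ))) ^ 4 *
          (((2 ^ J : ℕ) : ℝ)) ^ (4 - k * s) / ((((2 ^ J : ℕ) : ℝ)) ^ a) ^ 4
        = (6 + 24 * k * K) * ((2 + Real.log (((2 ^ J : ℕ) : ℝ))) ^ 4 *
          ((((2 ^ J : ℕ) : ℝ)) ^ (4 - k * s) / ((((2 ^ J : ℕ) : ℝ)) ^ a) ^ 4)) := by ring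
      _ ≤ _ := by
          rw [h2]
          refine mul_le_mul_of_nonneg_left ?_ (by positivity)
          exact mul_le_mul_of_nonneg_right h3 (by positivity)
  have hsum : Summable fun J : ℕ => (6 + 24 * k * K) * ((128 + 8 * (J : ℝ) ^ 4) * r ^ J) := by
    refine Summable.mul_left _ ?_
    have h1 : Summable fun J : ℕ => (J : ℝ) ^ 4 * r ^ J :=
      summable_pow_mul_geometric_of_norm_lt_one 4 (by
        rw [Real.norm_eq_abs, abs_of_pos hr0]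
        exact hr1)
    have h2 : Summable fun J : ℕ => r ^ J := summable_geometric_of_lt_one hr0.le hr1
    refine ((h2.mul_left 128).add (h1.mul_left 8)).congr fun J => ?_
    ring
  have hfin : ∑' J, μ (B J) ≠ ⊤ := by
    refine ne_top_of_le_ne_top ?_ (ENNReal.tsum_le_tsum hbound)
    rw [← ENNReal.ofReal_tsum_of_nonneg (fun J => by positivity) hsum]
    exact ENNReal.ofReal_ne_top
  filter_upwards [ae_eventually_notMem hfin] with t ht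
  obtain ⟨J₀, hJ₀⟩ := eventually_atTop.1 ht
  refine ⟨(2 * (2 : ℝ) ^ J₀) ^ a, fun N hN ξ => ?_⟩
  have hN0 : (0 : ℝ) < N := by exact_mod_cast hN
  set J : ℕ := Nat.log 2 N + 1 + J₀ with hJ
  have h1 : N ≤ 2 ^ J := by
    have h2 := Nat.lt_pow_succ_log_self (b := 2) (by norm_num) N
    calc N ≤ 2 ^ (Nat.log 2 N + 1) := h2.le
      _ ≤ 2 ^ J := Nat.pow_le_pow_right (by norm_num) (by omega)
  have h2 : (((2 ^ J : ℕ) : ℝ)) ≤ (2 * (2 : ℝ) ^ J₀) * N := by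
    have h3 := Nat.pow_log_le_self 2 (show N ≠ 0 by omega)
    have h4 : ((2 : ℝ) ^ Nat.log 2 N) ≤ N := by exact_mod_cast h3
    have h5 : (((2 ^ J : ℕ) : ℝ)) = (2 * (2 : ℝ) ^ J₀) * (2 : ℝ) ^ Nat.log 2 N := by
      rw [hJ]
      push_cast
      rw [pow_add, pow_add]
      ring
    rw [h5]
    exact mul_le_mul_of_nonneg_left h4 (by positivity)
  have h3 := hJ₀ J (by omega)
  have h4 : ‖sc k N c t ξ‖ ≤ (((2 ^ J : ℕ) : ℝ)) ^ a := by
    by_contra hcon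
    push Not at hcon
    exact h3 ⟨N, ξ, h1, hcon⟩
  refine h4.trans ?_
  rw [← Real.mul_rpow (by positivity) hN0.le]
  exact Real.rpow_le_rpow (by positivity) h2 ha0

/-- **Almost all points.** -/
theorem ae_all (hk : 2 ≤ k) (hK : 0 ≤ K) (hs : 0 < s) (hs1 : s ≤ 1 / k) (hd : Dec μ K s)
    (hc : ∀ n, ‖c n‖ ≤ 1) :
    ∀ᵐ t ∂μ, ∀ ε : ℝ, 0 < ε → ∃ C : ℝ, ∀ N : ℕ, 1 ≤ N → ∀ ξ : ℝ,
      ‖sc k N c t ξ‖ ≤ C * (N : ℝ) ^ (1 - k * s / 4 + ε) := by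
  have h1 : ∀ᵐ t ∂μ, ∀ j : ℕ, ∃ C : ℝ, ∀ N : ℕ, 1 ≤ N → ∀ ξ : ℝ,
      ‖sc k N c t ξ‖ ≤ C * (N : ℝ) ^ (1 - k * s / 4 + 1 / ((j : ℝ) + 1)) := by
    rw [ae_all_iff]
    exact fun j => ae_one hk hK hs hs1 hd hc (by positivity)
  filter_upwards [h1] with t ht ε hε
  obtain ⟨j, hj⟩ := exists_nat_one_div_lt hε
  obtain ⟨C, hC⟩ := ht j
  refine ⟨max C 0, fun N hN ξ => (hC N hN ξ).trans ?_⟩
  have hN1 : (1 : ℝ) ≤ N := by exact_mod_cast hN
  calc C * (N : ℝ) ^ (1 - k * s / 4 + 1 / ((j : ℝ) + 1))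
      ≤ max C 0 * (N : ℝ) ^ (1 - k * s / 4 + 1 / ((j : ℝ) + 1)) :=
        mul_le_mul_of_nonneg_right (le_max_left _ _) (by positivity)
    _ ≤ _ := mul_le_mul_of_nonneg_left
        (Real.rpow_le_rpow_of_exponent_le hN1 (by linarith)) (le_max_right _ _)

end

end Pool.Agent.R461.MF
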