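import Pool.Agent.R461.MF.Mom

/-! # The integral of the fourth moment -/

set_option autoImplicit false

open Finset MeasureTheory

namespace Pool.Agent.R461.MF

open Pool.Agent.W928.MW (e prs e_add e_norm e_cont)

/-- the integer frequency -/
def dl (k : ℕ) (z w : ℕ × ℕ) : ℤ := ((z.1 : ℤ) ^ k + (z.2 : ℤ) ^ k) - ((w.1 : ℤ) ^ k + (w.2 : ℤ) ^ k)

theorem e_mul_conj (x y : ℝ) : e x * (starRingEnd ℂ) (e y) = e (x - y) := by
  rw [← e_neg, ← e_add]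
  congr 1

theorem pc_sq (k N : ℕ) (c : ℕ → ℂ) (m : ℕ) (t : ℝ) : ((‖pc k N c m t‖ ^ 2 : ℝ) : ℂ) =
    ∑ z ∈ prs N m, ∑ w ∈ prs N m, (c z.1 * c z.2 * (starRingEnd ℂ) (c w.1 * c w.2)) *
      e ((dl k z w : ℝ) * t) := by
  have h1 : ((‖pc k N c m t‖ ^ 2 : ℝ) : ℂ) = pc k N c m t * (starRingEnd ℂ) (pc k N c m t) := by
    rw [Complex.mul_conj, Complex.normSq_eq_norm_sq]
  rw [h1]
  unfold pc
  rw [map_sum, Finset.sum_mul_sum]
  refine Finset.sum_congr rfl fun z _ => Finset.sum_congr rfl fun w _ => ?_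
  rw [map_mul]
  have h2 : (c z.1 * c z.2 * e (t * ((z.1 : ℝ) ^ k + (z.2 : ℝ) ^ k))) *
      ((starRingEnd ℂ) (c w.1 * c w.2) * (starRingEnd ℂ) (e (t * ((w.1 : ℝ) ^ k + (w.2 : ℝ) ^ k)))) =
      (c z.1 * c z.2 * (starRingEnd ℂ) (c w.1 * c w.2)) *
        (e (t * ((z.1 : ℝ) ^ k + (z.2 : ℝ) ^ k)) *
          (starRingEnd ℂ) (e (t * ((w.1 : ℝ) ^ k + (w.2 : ℝ) ^ k)))) := by ring
  rw [h2, e_mul_conj]
  congr 2
  unfold dl
  push_cast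
  ring

theorem coef_le {c : ℕ → ℂ} (hc : ∀ n, ‖c n‖ ≤ 1) (z w : ℕ × ℕ) :
    ‖c z.1 * c z.2 * (starRingEnd ℂ) (c w.1 * c w.2)‖ ≤ 1 := by
  rw [norm_mul, norm_mul, RCLike.norm_conj, norm_mul]
  have h1 : ‖c z.1‖ * ‖c z.2‖ ≤ 1 := mul_le_one₀ (hc _) (norm_nonneg _) (hc _)
  have h2 : ‖c w.1‖ * ‖c w.2‖ ≤ 1 := mul_le_one₀ (hc _) (norm_nonneg _) (hc _)
  exact mul_le_one₀ h1 (by positivity) h2

theorem e_int {μ : Measure ℝ} [IsProbabilityMeasure μ] (x : ℝ) : Integrable (fun t => e (x * t)) μ := by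
  refine Integrable.of_bound ((e_cont.comp (by fun_prop)).aestronglyMeasurable) 1 ?_
  filter_upwards with t
  rw [e_norm]

theorem pc_int {μ : Measure ℝ} [IsProbabilityMeasure μ] (k N : ℕ) {c : ℕ → ℂ}
    (hc : ∀ n, ‖c n‖ ≤ 1) (m : ℕ) :
    ∫ t, ‖pc k N c m t‖ ^ 2 ∂μ ≤ ∑ z ∈ prs N m, ∑ w ∈ prs N m, ‖∫ t, e ((dl k z w : ℝ) * t) ∂μ‖ := by
  have h1 : ((∫ t, ‖pc k N c m t‖ ^ 2 ∂μ : ℝ) : ℂ) =
      ∑ z ∈ prs N m, ∑ w ∈ prs N m, (c z.1 * c z.2 * (starRingEnd ℂ) (c w.1 * c w.2)) *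
        ∫ t, e ((dl k z w : ℝ) * t) ∂μ := by
    rw [← integral_complex_ofReal]
    simp only [pc_sq]
    rw [integral_finsetSum _ fun z _ => integrable_finsetSum _ fun w _ => (e_int _).const_mul _]
    refine Finset.sum_congr rfl fun z _ => ?_
    rw [integral_finsetSum _ fun w _ => (e_int _).const_mul _]
    refine Finset.sum_congr rfl fun w _ => ?_
    rw [integral_const_mul]
  have h0 : 0 ≤ ∫ t, ‖pc k N c m t‖ ^ 2 ∂μ := integral_nonneg fun t => sq_nonneg _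
  have h2 : ∫ t, ‖pc k N c m t‖ ^ 2 ∂μ = ‖((∫ t, ‖pc k N c m t‖ ^ 2 ∂μ : ℝ) : ℂ)‖ := by
    rw [Complex.norm_real, Real.norm_eq_abs, abs_of_nonneg h0]
  rw [h2, h1]
  refine (norm_sum_le _ _).trans (Finset.sum_le_sum fun z _ => ?_)
  refine (norm_sum_le _ _).trans (Finset.sum_le_sum fun w _ => ?_)
  rw [norm_mul]
  calc _ ≤ 1 * ‖∫ t, e ((dl k z w : ℝ) * t) ∂μ‖ :=
        mul_le_mul_of_nonneg_right (coef_le hc z w) (norm_nonneg _)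
    _ = _ := one_mul _

theorem mem_prs {N m : ℕ} {z : ℕ × ℕ} : z ∈ prs N m ↔ (1 ≤ z.1 ∧ z.1 ≤ N) ∧ (1 ≤ z.2 ∧ z.2 ≤ N) ∧ z.1 + z.2 = m := by
  unfold prs
  rw [Finset.mem_filter, Finset.mem_product, Finset.mem_Icc, Finset.mem_Icc]
  tauto

/-- the coefficients of the pairs -/
theorem term_le {μ : Measure ℝ} [IsProbabilityMeasure μ] {k : ℕ} (hk : 2 ≤ k) {K s : ℝ}
    (hK : 0 ≤ K) (hs : 0 < s) (hd : Dec μ K s) {N m : ℕ} {z w : ℕ × ℕ} (hz : z ∈ prs N m)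
    (hw : w ∈ prs N m) : ‖∫ t, e ((dl k z w : ℝ) * t) ∂μ‖ ≤ hh k K s z.1 w.1 w.2 := by
  rw [mem_prs] at hz hw
  have g1 := gg_nonneg s z.1 w.1
  have g2 := gg_nonneg s z.1 w.2
  have g3 : (0 : ℝ) ≤ if z.1 = w.1 then 1 else 0 := by split_ifs <;> norm_num
  have g4 : (0 : ℝ) ≤ if z.1 = w.2 then 1 else 0 := by split_ifs <;> norm_num
  have g5 : 0 ≤ K * (((z.1 : ℝ) ^ (-(((k : ℝ) - 2) * s))) * (gg s z.1 w.1 * gg s z.1 w.2)) := by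
    positivity
  by_cases h1 : z.1 = w.1
  · refine (int_le_one _).trans ?_
    unfold hh
    rw [if_pos h1]
    linarith
  by_cases h2 : z.1 = w.2
  · refine (int_le_one _).trans ?_
    unfold hh
    rw [if_pos h2]
    linarith
  have hdio := Pool.Agent.W225.MWD.t k z.1 z.2 w.1 w.2 hk (by omega)
  set D : ℤ := dl k z w with hD
  have hDr : (D : ℝ) = (z.1 : ℝ) ^ k + (z.2 : ℝ) ^ k - (w.1 : ℝ) ^ k - (w.2 : ℝ) ^ k := by
    rw [hD]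
    unfold dl
    push_cast
    ring
  rw [← hDr] at hdio
  have hx1 : (1 : ℝ) ≤ z.1 := by exact_mod_cast hz.1.1
  have hx0 : (0 : ℝ) < z.1 := by linarith
  have hmax : (z.1 : ℝ) ^ (k - 2) ≤
      (max (max (z.1 : ℝ) (z.2 : ℝ)) (max (w.1 : ℝ) (w.2 : ℝ))) ^ (k - 2) :=
    pow_le_pow_left₀ hx0.le ((le_max_left _ _).trans (le_max_left _ _)) _
  have ha1 : (1 : ℝ) ≤ |(z.1 : ℝ) - w.1| := by
    have h3 : ((z.1 : ℤ) - (w.1 : ℤ)) ≠ 0 := by omega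
    have h4 := Int.one_le_abs h3
    have h5 : ((1 : ℤ) : ℝ) ≤ ((|(z.1 : ℤ) - (w.1 : ℤ)| : ℤ) : ℝ) := by exact_mod_cast h4
    push_cast at h5
    exact h5
  have ha2 : (1 : ℝ) ≤ |(z.1 : ℝ) - w.2| := by
    have h3 : ((z.1 : ℤ) - (w.2 : ℤ)) ≠ 0 := by omega
    have h4 := Int.one_le_abs h3
    have h5 : ((1 : ℤ) : ℝ) ≤ ((|(z.1 : ℤ) - (w.2 : ℤ)| : ℤ) : ℝ) := by exact_mod_cast h4
    push_cast at h5
    exact h5
  have hp : (1 : ℝ) ≤ (z.1 : ℝ) ^ (k - 2) := one_le_pow₀ hx1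
  set A : ℝ := |(z.1 : ℝ) - w.1| * |(z.1 : ℝ) - w.2| * (z.1 : ℝ) ^ (k - 2) with hA
  have hAD : A ≤ |(D : ℝ)| :=
    le_trans (mul_le_mul_of_nonneg_left hmax (by positivity)) hdio
  have hA1 : 1 ≤ A := by
    have h3 : (1 : ℝ) ≤ |(z.1 : ℝ) - w.1| * |(z.1 : ℝ) - w.2| := by nlinarith
    rw [hA]
    nlinarith
  have hD0 : D ≠ 0 := by
    intro h0
    rw [h0, Int.cast_zero, abs_zero] at hAD
    linarith
  have h3 := dec_int hd hD0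
  have h4 : |(D : ℝ)| ^ (-s) ≤ A ^ (-s) :=
    Real.rpow_le_rpow_of_nonpos (by linarith) hAD (by linarith)
  have h5 : A ^ (-s) = ((z.1 : ℝ) ^ (-(((k : ℝ) - 2) * s))) * (gg s z.1 w.1 * gg s z.1 w.2) := by
    rw [hA, Real.mul_rpow (by positivity) (by positivity), Real.mul_rpow (abs_nonneg _) (abs_nonneg _),
      ← Real.rpow_natCast, ← Real.rpow_mul hx0.le, Nat.cast_sub hk]
    unfold gg
    rw [if_neg h1, if_neg h2]
    push_cast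
    rw [show ((k : ℝ) - 2) * -s = -(((k : ℝ) - 2) * s) by ring]
    ring
  unfold hh
  have h6 : K * |(D : ℝ)| ^ (-s) ≤ K * A ^ (-s) := mul_le_mul_of_nonneg_left h4 hK
  rw [h5] at h6
  linarith

theorem Qc_int {μ : Measure ℝ} [IsProbabilityMeasure μ] {k : ℕ} (hk : 2 ≤ k) {K s : ℝ}
    (hK : 0 ≤ K) (hs : 0 < s) (hd : Dec μ K s) (N : ℕ) {c : ℕ → ℂ} (hc : ∀ n, ‖c n‖ ≤ 1) :
    ∫ t, Qc k N c t ∂μ ≤ ∑ x ∈ Icc 1 N, ∑ y ∈ Icc 1 N, ∑ z ∈ Icc 1 N, hh k K s x y z := by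
  classical
  have hpint : ∀ m, Integrable (fun t => ‖pc k N c m t‖ ^ 2) μ := by
    intro m
    refine Integrable.of_bound (((pc_cont k N c m).norm.pow 2).aestronglyMeasurable)
      (((prs N m).card : ℝ) ^ 2) ?_
    filter_upwards with t
    rw [Real.norm_eq_abs, abs_of_nonneg (sq_nonneg _)]
    refine pow_le_pow_left₀ (norm_nonneg _) ?_ 2
    unfold pc
    refine (norm_sum_le _ _).trans ?_
    calc _ ≤ ∑ z ∈ prs N m, (1 : ℝ) := Finset.sum_le_sum fun z _ => by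
          rw [norm_mul, norm_mul, e_norm, mul_one]
          exact mul_le_one₀ (hc _) (norm_nonneg _) (hc _)
      _ = _ := by rw [Finset.sum_const, nsmul_eq_mul, mul_one]
  unfold Qc
  rw [integral_finsetSum _ fun m _ => hpint m]
  have h1 : ∀ m ∈ range (2 * N + 1), ∫ t, ‖pc k N c m t‖ ^ 2 ∂μ ≤
      ∑ w ∈ prs N m, ∑ x ∈ Icc 1 N, hh k K s x w.1 w.2 := by
    intro m _
    refine (pc_int k N hc m).trans ?_
    rw [Finset.sum_comm]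
    refine Finset.sum_le_sum fun w hw => ?_
    refine (Finset.sum_le_sum fun z hz => term_le hk hK hs hd hz hw).trans ?_
    refine sum_inj (fun z : ℕ × ℕ => z.1) (fun z hz => ?_) ?_ (fun x => hh k K s x w.1 w.2)
      (fun x _ => hh_nonneg hK _ _ _)
    · rw [mem_prs] at hz
      exact Finset.mem_Icc.2 hz.1
    · intro a ha b hb hab
      rw [Finset.mem_coe, mem_prs] at ha hb
      simp only at hab
      refine Prod.ext hab ?_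
      omega
  refine (Finset.sum_le_sum h1).trans ?_
  have h2 : ∑ m ∈ range (2 * N + 1), ∑ w ∈ prs N m, ∑ x ∈ Icc 1 N, hh k K s x w.1 w.2 =
      ∑ w ∈ (Icc 1 N) ×ˢ (Icc 1 N), ∑ x ∈ Icc 1 N, hh k K s x w.1 w.2 := by
    unfold prs
    refine Finset.sum_fiberwise_of_maps_to (fun z hz => ?_) _
    rw [Finset.mem_product, Finset.mem_Icc, Finset.mem_Icc] at hz
    rw [Finset.mem_range]
    omega
  rw [h2, Finset.sum_product, Finset.sum_comm]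
  refine le_of_eq ?_
  have h3 : ∀ y ∈ Icc 1 N, ∑ x ∈ Icc 1 N, ∑ z ∈ Icc 1 N, hh k K s z x y = 0 ∨ True := fun _ _ => Or.inr trivial
  clear h3
  calc ∑ y ∈ Icc 1 N, ∑ x ∈ Icc 1 N, ∑ z ∈ Icc 1 N, hh k K s z x y
      = ∑ y ∈ Icc 1 N, ∑ z ∈ Icc 1 N, ∑ x ∈ Icc 1 N, hh k K s z x y :=
        Finset.sum_congr rfl fun y _ => Finset.sum_comm
    _ = ∑ z ∈ Icc 1 N, ∑ y ∈ Icc 1 N, ∑ x ∈ Icc 1 N, hh k K s z x y := Finset.sum_comm
    _ = ∑ z ∈ Icc 1 N, ∑ x ∈ Icc 1 N, ∑ y ∈ Icc 1 N, hh k K s z x y :=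
        Finset.sum_congr rfl fun z _ => Finset.sum_comm

/-- **The fourth moment.** -/
theorem moment {μ : Measure ℝ} [IsProbabilityMeasure μ] {k : ℕ} (hk : 2 ≤ k) {K s : ℝ}
    (hK : 0 ≤ K) (hs : 0 < s) (hs1 : s ≤ 1 / k) (hd : Dec μ K s) {N : ℕ} (hN : 1 ≤ N) {c : ℕ → ℂ}
    (hc : ∀ n, ‖c n‖ ≤ 1) :
    ∫ t, (2 * (N : ℝ) + 1) * Qc k N c t ∂μ ≤ (6 + 24 * k * K) * (N : ℝ) ^ (4 - k * s) := by
  have hk0 : (0 : ℝ) < k := by
    have : 0 < k := by omega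
    exact_mod_cast this
  have hN1 : (1 : ℝ) ≤ N := by exact_mod_cast hN
  have hN0 : (0 : ℝ) < N := by linarith
  have hks : k * s ≤ 1 := by
    rw [le_div_iff₀ hk0] at hs1
    linarith
  rw [integral_const_mul]
  have h1 := (Qc_int hk hK hs hd N hc).trans (sum_hh hk hK hs hs1 hN)
  have h2 : (N : ℝ) ^ 2 ≤ (N : ℝ) ^ (3 - k * s) := by
    rw [← Real.rpow_natCast]
    refine Real.rpow_le_rpow_of_exponent_le hN1 ?_
    push_cast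
    linarith
  have h3 : ∫ t, Qc k N c t ∂μ ≤ (2 + 8 * k * K) * (N : ℝ) ^ (3 - k * s) := by
    linarith
  have h4 : 0 ≤ ∫ t, Qc k N c t ∂μ := integral_nonneg fun t => Qc_nonneg k N c t
  have h5 : (N : ℝ) ^ (4 - k * s) = N * (N : ℝ) ^ (3 - k * s) := by
    rw [show (4 - k * s) = 1 + (3 - k * s) by ring, Real.rpow_add hN0, Real.rpow_one]
  have hB : 0 ≤ (2 + 8 * k * K) * (N : ℝ) ^ (3 - k * s) := by positivity
  calc (2 * (N : ℝ) + 1) * ∫ t, Qc k N c t ∂μ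
      ≤ (2 * (N : ℝ) + 1) * ((2 + 8 * k * K) * (N : ℝ) ^ (3 - k * s)) :=
        mul_le_mul_of_nonneg_left h3 (by positivity)
    _ ≤ (3 * N) * ((2 + 8 * k * K) * (N : ℝ) ^ (3 - k * s)) :=
        mul_le_mul_of_nonneg_right (by linarith) hB
    _ = _ := by rw [h5]; ring

end Pool.Agent.R461.MF
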