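import Pool.Agent.TH181.MX.Lin
import Pool.Agent.W225.MWDIO

/-! # The fourth moment of Weyl sums, uniformly in the linear coefficient, for measures with Fourier decay -/

set_option autoImplicit false

open Finset MeasureTheory

namespace Pool.Agent.R461.MF

open Pool.Agent.W928.MW (e prs e_add e_norm e_cont)

/-- the sum with coefficients -/
noncomputable def sc (k N : ℕ) (c : ℕ → ℂ) (t ξ : ℝ) : ℂ :=
  ∑ n ∈ Icc 1 N, c n * e (t * (n : ℝ) ^ k + ξ * (n : ℝ))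

noncomputable def pc (k N : ℕ) (c : ℕ → ℂ) (m : ℕ) (t : ℝ) : ℂ :=
  ∑ z ∈ prs N m, c z.1 * c z.2 * e (t * ((z.1 : ℝ) ^ k + (z.2 : ℝ) ^ k))

noncomputable def Qc (k N : ℕ) (c : ℕ → ℂ) (t : ℝ) : ℝ := ∑ m ∈ range (2 * N + 1), ‖pc k N c m t‖ ^ 2

theorem sc_sq (k N : ℕ) (c : ℕ → ℂ) (t ξ : ℝ) :
    sc k N c t ξ ^ 2 = ∑ m ∈ range (2 * N + 1), e (ξ * m) * pc k N c m t := by
  have h1 : sc k N c t ξ ^ 2 = ∑ z ∈ (Icc 1 N) ×ˢ (Icc 1 N),
      e (ξ * ((z.1 + z.2 : ℕ) : ℝ)) * (c z.1 * c z.2 * e (t * ((z.1 : ℝ) ^ k + (z.2 : ℝ) ^ k))) := by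
    rw [sq]
    unfold sc
    rw [Finset.sum_mul_sum, ← Finset.sum_product']
    apply Finset.sum_congr rfl
    intro z _
    have h2 : e (ξ * ((z.1 + z.2 : ℕ) : ℝ)) * (c z.1 * c z.2 * e (t * ((z.1 : ℝ) ^ k + (z.2 : ℝ) ^ k))) =
        c z.1 * c z.2 * (e (ξ * ((z.1 + z.2 : ℕ) : ℝ)) * e (t * ((z.1 : ℝ) ^ k + (z.2 : ℝ) ^ k))) := by
      ring
    have h3 : c z.1 * e (t * (z.1 : ℝ) ^ k + ξ * (z.1 : ℝ)) * (c z.2 * e (t * (z.2 : ℝ) ^ k + ξ * (z.2 : ℝ))) =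
        c z.1 * c z.2 * (e (t * (z.1 : ℝ) ^ k + ξ * (z.1 : ℝ)) * e (t * (z.2 : ℝ) ^ k + ξ * (z.2 : ℝ))) := by
      ring
    rw [h2, h3, ← e_add, ← e_add]
    congr 2
    push_cast
    ring
  rw [h1, ← Finset.sum_fiberwise_of_maps_to (s := (Icc 1 N) ×ˢ (Icc 1 N)) (t := range (2 * N + 1))
    (g := fun z : ℕ × ℕ => z.1 + z.2)]
  · apply Finset.sum_congr rfl
    intro m _
    unfold pc prs
    rw [Finset.mul_sum]
    apply Finset.sum_congr rfl
    intro z hz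
    rw [Finset.mem_filter] at hz
    rw [hz.2]
  · intro z hz
    rw [Finset.mem_product, Finset.mem_Icc, Finset.mem_Icc] at hz
    rw [Finset.mem_range]
    omega

theorem sup4 (k N : ℕ) (c : ℕ → ℂ) (t ξ : ℝ) :
    ‖sc k N c t ξ‖ ^ 4 ≤ (2 * (N : ℝ) + 1) * Qc k N c t := by
  have h1 : ‖sc k N c t ξ‖ ^ 4 = ‖sc k N c t ξ ^ 2‖ ^ 2 := by
    rw [norm_pow]; ring
  rw [h1, sc_sq]
  have h2 : ‖∑ m ∈ range (2 * N + 1), e (ξ * m) * pc k N c m t‖ ≤
      ∑ m ∈ range (2 * N + 1), ‖pc k N c m t‖ := by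
    refine (norm_sum_le _ _).trans (le_of_eq ?_)
    apply Finset.sum_congr rfl
    intro m _
    rw [norm_mul, e_norm, one_mul]
  have h3 := sq_sum_le_card_mul_sum_sq (s := range (2 * N + 1)) (f := fun m => ‖pc k N c m t‖)
  rw [Finset.card_range] at h3
  have h4 : (((2 * N + 1 : ℕ) : ℝ)) = 2 * (N : ℝ) + 1 := by push_cast; ring
  rw [h4] at h3
  refine le_trans ?_ h3
  exact pow_le_pow_left₀ (norm_nonneg _) h2 2

theorem pc_cont (k N : ℕ) (c : ℕ → ℂ) (m : ℕ) : Continuous (pc k N c m) := by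
  unfold pc
  refine continuous_finsetSum _ fun z _ => ?_
  exact continuous_const.mul (e_cont.comp (by fun_prop))

theorem Qc_cont (k N : ℕ) (c : ℕ → ℂ) : Continuous (Qc k N c) := by
  unfold Qc
  exact continuous_finsetSum _ fun m _ => ((pc_cont k N c m).norm.pow 2)

theorem Qc_nonneg (k N : ℕ) (c : ℕ → ℂ) (t : ℝ) : 0 ≤ Qc k N c t :=
  Finset.sum_nonneg fun m _ => sq_nonneg _

/-- sums of powers -/
theorem sum_rpow {a : ℝ} (h0 : 0 ≤ a) (h1 : a < 1) (N : ℕ) :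
    ∑ d ∈ Icc 1 N, (d : ℝ) ^ (-a) ≤ (N : ℝ) ^ (1 - a) / (1 - a) := by
  induction N with
  | zero =>
    simp only [show Icc 1 0 = (∅ : Finset ℕ) from rfl, Finset.sum_empty]
    have : (0 : ℝ) < 1 - a := by linarith
    positivity
  | succ N ih =>
    have ha : (0 : ℝ) < 1 - a := by linarith
    rw [Finset.sum_Icc_succ_top (by omega)]
    set x : ℝ := ((N + 1 : ℕ) : ℝ) with hx
    have hx0 : 0 < x := by
      rw [hx]
      positivity
    have hx1 : 1 ≤ x := by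
      rw [hx]
      push_cast
      have : (0 : ℝ) ≤ N := Nat.cast_nonneg N
      linarith
    have h2 := rpow_one_add_le_one_add_mul_self (s := -(1 / x)) (p := 1 - a) (by
      rw [neg_le_neg_iff]
      exact (div_le_one hx0).2 hx1) ha.le (by linarith)
    have h3 : (N : ℝ) = x * (1 + -(1 / x)) := by
      rw [hx]
      push_cast
      field_simp
      ring
    have h4 : (N : ℝ) ^ (1 - a) ≤ x ^ (1 - a) * (1 + (1 - a) * -(1 / x)) := by
      rw [h3, Real.mul_rpow hx0.le (by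
        have : 1 / x ≤ 1 := (div_le_one hx0).2 hx1
        linarith)]
      exact mul_le_mul_of_nonneg_left h2 (by positivity)
    have h5 : x ^ (1 - a) = x * x ^ (-a) := by
      rw [show (1 - a) = 1 + (-a) by ring, Real.rpow_add hx0, Real.rpow_one]
    have h6 : x ^ (1 - a) * (1 + (1 - a) * -(1 / x)) = x ^ (1 - a) - (1 - a) * x ^ (-a) := by
      rw [h5]
      field_simp
      ring
    rw [h6] at h4
    rw [le_div_iff₀ ha] at ih ⊢
    rw [add_mul]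
    linarith

/-- the decay of the Fourier coefficients at integers -/
def Dec (μ : Measure ℝ) (K s : ℝ) : Prop :=
  ∀ m : ℕ, 1 ≤ m → ‖∫ t, e ((m : ℝ) * t) ∂μ‖ ≤ K * (m : ℝ) ^ (-s)

theorem e_neg (x : ℝ) : e (-x) = (starRingEnd ℂ) (e x) := by
  unfold e
  rw [← Complex.exp_conj]
  congr 1
  simp only [map_mul, Complex.conj_ofReal, Complex.conj_I, map_ofNat]
  push_cast
  ring

theorem dec_int {μ : Measure ℝ} {K s : ℝ} (h : Dec μ K s) {D : ℤ} (hD : D ≠ 0) :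
    ‖∫ t, e ((D : ℝ) * t) ∂μ‖ ≤ K * |(D : ℝ)| ^ (-s) := by
  rcases Int.natAbs_eq D with h1 | h1
  · have h2 : (D : ℝ) = ((D.natAbs : ℕ) : ℝ) := by
      have h5 : ((D : ℤ) : ℝ) = (((D.natAbs : ℕ) : ℤ) : ℝ) := congrArg _ h1
      rw [h5, Int.cast_natCast]
    have h3 := h D.natAbs (Int.natAbs_pos.2 hD)
    rw [h2, abs_of_nonneg (Nat.cast_nonneg _)]
    exact h3
  · have h2 : (D : ℝ) = -((D.natAbs : ℕ) : ℝ) := by
      have h5 : ((D : ℤ) : ℝ) = ((-((D.natAbs : ℕ) : ℤ) : ℤ) : ℝ) := congrArg _ h1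
      rw [h5, Int.cast_neg, Int.cast_natCast]
    have h3 := h D.natAbs (Int.natAbs_pos.2 hD)
    rw [h2, abs_neg, abs_of_nonneg (Nat.cast_nonneg _)]
    refine le_trans (le_of_eq ?_) h3
    have h4 : ∀ t : ℝ, e (-((D.natAbs : ℕ) : ℝ) * t) = (starRingEnd ℂ) (e (((D.natAbs : ℕ) : ℝ) * t)) := by
      intro t
      rw [← e_neg]
      congr 1
      ring
    simp only [h4]
    rw [integral_conj, RCLike.norm_conj]

theorem int_le_one {μ : Measure ℝ} [IsProbabilityMeasure μ] (x : ℝ) : ‖∫ t, e (x * t) ∂μ‖ ≤ 1 := by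
  refine (norm_integral_le_integral_norm _).trans ?_
  simp only [e_norm]
  simp

/-- sums along injections -/
theorem sum_inj {α : Type} [DecidableEq α] {s : Finset α} {t : Finset ℕ} (f : α → ℕ)
    (hf : ∀ a ∈ s, f a ∈ t) (hinj : Set.InjOn f s) (g : ℕ → ℝ) (hg : ∀ b ∈ t, 0 ≤ g b) :
    ∑ a ∈ s, g (f a) ≤ ∑ b ∈ t, g b := by
  rw [← Finset.sum_image hinj]
  refine Finset.sum_le_sum_of_subset_of_nonneg ?_ fun b hb _ => hg b hb
  intro b hb
  obtain ⟨a, ha, rfl⟩ := Finset.mem_image.1 hb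
  exact hf a ha

/-- the decay of the differences -/
noncomputable def gg (s : ℝ) (x y : ℕ) : ℝ := if x = y then 0 else |(x : ℝ) - (y : ℝ)| ^ (-s)

theorem gg_nonneg (s : ℝ) (x y : ℕ) : 0 ≤ gg s x y := by
  unfold gg
  split_ifs
  · exact le_rfl
  · positivity

theorem sum_gg {s : ℝ} (h0 : 0 ≤ s) (h1 : s < 1) (N x : ℕ) (hx : x ∈ Icc 1 N) :
    ∑ y ∈ Icc 1 N, gg s x y ≤ 2 * ((N : ℝ) ^ (1 - s) / (1 - s)) := by
  classical
  rw [Finset.mem_Icc] at hx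
  have hsplit : ∑ y ∈ Icc 1 N, gg s x y ≤ (∑ y ∈ (Icc 1 N).filter (fun y => y < x), ((x - y : ℕ) : ℝ) ^ (-s)) +
      ∑ y ∈ (Icc 1 N).filter (fun y => x < y), ((y - x : ℕ) : ℝ) ^ (-s) := by
    rw [Finset.sum_filter, Finset.sum_filter, ← Finset.sum_add_distrib]
    refine Finset.sum_le_sum fun y _ => ?_
    unfold gg
    rcases lt_trichotomy y x with h | h | h
    · rw [if_neg (by omega), if_pos h, if_neg (by omega), add_zero]
      have h2 : (0 : ℝ) < (x : ℝ) - y := by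
        have : (y : ℝ) < x := by exact_mod_cast h
        linarith
      rw [Nat.cast_sub h.le, abs_of_pos h2]
    · rw [if_pos h.symm, if_neg (by omega), if_neg (by omega), add_zero]
    · rw [if_neg (by omega), if_neg (by omega), if_pos h, zero_add]
      have h2 : (x : ℝ) - y < 0 := by
        have : (x : ℝ) < y := by exact_mod_cast h
        linarith
      rw [Nat.cast_sub h.le, abs_of_neg h2, neg_sub]
  have h2 : ∑ y ∈ (Icc 1 N).filter (fun y => y < x), ((x - y : ℕ) : ℝ) ^ (-s) ≤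
      ∑ d ∈ Icc 1 N, (d : ℝ) ^ (-s) := by
    refine sum_inj (fun y => x - y) (fun y hy => ?_) ?_ (fun d => (d : ℝ) ^ (-s))
      (fun d _ => by positivity)
    · rw [Finset.mem_filter, Finset.mem_Icc] at hy
      rw [Finset.mem_Icc]
      omega
    · intro a ha b hb hab
      rw [Finset.mem_coe, Finset.mem_filter, Finset.mem_Icc] at ha hb
      simp only at hab
      omega
  have h3 : ∑ y ∈ (Icc 1 N).filter (fun y => x < y), ((y - x : ℕ) : ℝ) ^ (-s) ≤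
      ∑ d ∈ Icc 1 N, (d : ℝ) ^ (-s) := by
    refine sum_inj (fun y => y - x) (fun y hy => ?_) ?_ (fun d => (d : ℝ) ^ (-s))
      (fun d _ => by positivity)
    · rw [Finset.mem_filter, Finset.mem_Icc] at hy
      rw [Finset.mem_Icc]
      omega
    · intro a ha b hb hab
      rw [Finset.mem_coe, Finset.mem_filter, Finset.mem_Icc] at ha hb
      simp only at hab
      omega
  have h4 := sum_rpow h0 h1 N
  linarith

/-- the weights of the pairs -/
noncomputable def hh (k : ℕ) (K s : ℝ) (x y z : ℕ) : ℝ :=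
  (if x = y then 1 else 0) + (if x = z then 1 else 0) +
    K * (((x : ℝ) ^ (-(((k : ℝ) - 2) * s))) * (gg s x y * gg s x z))

theorem hh_nonneg {k : ℕ} {K s : ℝ} (hK : 0 ≤ K) (x y z : ℕ) : 0 ≤ hh k K s x y z := by
  unfold hh
  have h1 := gg_nonneg s x y
  have h2 := gg_nonneg s x z
  have h3 : (0 : ℝ) ≤ if x = y then 1 else 0 := by split_ifs <;> norm_num
  have h4 : (0 : ℝ) ≤ if x = z then 1 else 0 := by split_ifs <;> norm_num
  positivity

theorem sum_hh {k : ℕ} (hk : 2 ≤ k) {K s : ℝ} (hK : 0 ≤ K) (h0 : 0 < s) (h1 : s ≤ 1 / k) {N : ℕ}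
    (hN : 1 ≤ N) : ∑ x ∈ Icc 1 N, ∑ y ∈ Icc 1 N, ∑ z ∈ Icc 1 N, hh k K s x y z ≤
      2 * (N : ℝ) ^ 2 + 8 * k * K * (N : ℝ) ^ (3 - k * s) := by
  have hk0 : (0 : ℝ) < k := by
    have : 0 < k := by omega
    exact_mod_cast this
  have hk2 : (2 : ℝ) ≤ k := by exact_mod_cast hk
  have hN0 : (0 : ℝ) < N := by exact_mod_cast hN
  have hs1 : s < 1 := by
    have : 1 / (k : ℝ) ≤ 1 / 2 := one_div_le_one_div_of_le (by norm_num) hk2
    linarith
  have hks : k * s ≤ 1 := by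
    rw [le_div_iff₀ hk0] at h1
    linarith
  have hs2 : 1 / 2 ≤ 1 - s := by
    have : 1 / (k : ℝ) ≤ 1 / 2 := one_div_le_one_div_of_le (by norm_num) hk2
    linarith
  -- for fixed x
  have key : ∀ x ∈ Icc 1 N, ∑ y ∈ Icc 1 N, ∑ z ∈ Icc 1 N, hh k K s x y z ≤
      2 * (N : ℝ) + K * ((x : ℝ) ^ (-(((k : ℝ) - 2) * s)) * (16 * (N : ℝ) ^ (2 - 2 * s))) := by
    intro x hx
    have e1 : ∑ y ∈ Icc 1 N, ∑ z ∈ Icc 1 N, hh k K s x y z =
        (N : ℝ) + N + K * ((x : ℝ) ^ (-(((k : ℝ) - 2) * s)) *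
          ((∑ y ∈ Icc 1 N, gg s x y) * ∑ z ∈ Icc 1 N, gg s x z)) := by
      unfold hh
      simp only [Finset.sum_add_distrib]
      congr 1
      · congr 1
        · rw [Finset.sum_comm]
          have : ∀ z ∈ Icc 1 N, ∑ y ∈ Icc 1 N, (if x = y then (1 : ℝ) else 0) = 1 := fun z _ => by
            rw [Finset.sum_ite_eq, if_pos hx]
          rw [Finset.sum_congr rfl this, Finset.sum_const, Nat.card_Icc]
          simp
        · have : ∀ y ∈ Icc 1 N, ∑ z ∈ Icc 1 N, (if x = z then (1 : ℝ) else 0) = 1 := fun z _ => by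
            rw [Finset.sum_ite_eq, if_pos hx]
          rw [Finset.sum_congr rfl this, Finset.sum_const, Nat.card_Icc]
          simp
      · rw [Finset.sum_mul_sum, Finset.mul_sum, Finset.mul_sum]
        refine Finset.sum_congr rfl fun y _ => ?_
        rw [Finset.mul_sum, Finset.mul_sum]
    rw [e1]
    have h2 := sum_gg h0.le hs1 N x hx
    have h3 : 0 ≤ ∑ y ∈ Icc 1 N, gg s x y := Finset.sum_nonneg fun y _ => gg_nonneg s x y
    have h4 : 2 * ((N : ℝ) ^ (1 - s) / (1 - s)) ≤ 4 * (N : ℝ) ^ (1 - s) := by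
      have h5 : (N : ℝ) ^ (1 - s) / (1 - s) ≤ 2 * (N : ℝ) ^ (1 - s) := by
        rw [div_le_iff₀ (by linarith)]
        have : (0 : ℝ) ≤ (N : ℝ) ^ (1 - s) := by positivity
        nlinarith
      linarith
    have h5 : (∑ y ∈ Icc 1 N, gg s x y) * ∑ z ∈ Icc 1 N, gg s x z ≤
        16 * (N : ℝ) ^ (2 - 2 * s) := by
      have h6 : (∑ y ∈ Icc 1 N, gg s x y) ≤ 4 * (N : ℝ) ^ (1 - s) := h2.trans h4
      calc _ ≤ (4 * (N : ℝ) ^ (1 - s)) * (4 * (N : ℝ) ^ (1 - s)) :=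
            mul_le_mul h6 h6 h3 (by positivity)
        _ = 16 * ((N : ℝ) ^ (1 - s) * (N : ℝ) ^ (1 - s)) := by ring
        _ = _ := by
            rw [← Real.rpow_add hN0]
            congr 2
            ring
    have h6 : K * ((x : ℝ) ^ (-(((k : ℝ) - 2) * s)) *
          ((∑ y ∈ Icc 1 N, gg s x y) * ∑ z ∈ Icc 1 N, gg s x z)) ≤
        K * ((x : ℝ) ^ (-(((k : ℝ) - 2) * s)) * (16 * (N : ℝ) ^ (2 - 2 * s))) :=
      mul_le_mul_of_nonneg_left (mul_le_mul_of_nonneg_left h5 (by positivity)) hK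
    linarith
  refine (Finset.sum_le_sum key).trans ?_
  rw [Finset.sum_add_distrib, Finset.sum_const, Nat.card_Icc, nsmul_eq_mul, ← Finset.mul_sum,
    ← Finset.sum_mul]
  have h2 : ((N + 1 - 1 : ℕ) : ℝ) * (2 * (N : ℝ)) = 2 * (N : ℝ) ^ 2 := by
    rw [Nat.add_sub_cancel]
    ring
  rw [h2]
  have ha0 : 0 ≤ ((k : ℝ) - 2) * s := mul_nonneg (by linarith) h0.le
  have ha2 : ((k : ℝ) - 2) * s ≤ 1 - 2 / k := by
    have h3 : ((k : ℝ) - 2) * s ≤ ((k : ℝ) - 2) * (1 / k) :=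
      mul_le_mul_of_nonneg_left h1 (by linarith)
    refine h3.trans (le_of_eq ?_)
    field_simp
  have hk1 : 0 < 2 / (k : ℝ) := by positivity
  have h3 := sum_rpow ha0 (by linarith) N
  have h4 : (N : ℝ) ^ (1 - ((k : ℝ) - 2) * s) / (1 - ((k : ℝ) - 2) * s) ≤
      (k / 2 : ℝ) * (N : ℝ) ^ (1 - ((k : ℝ) - 2) * s) := by
    rw [div_le_iff₀ (by linarith)]
    have h5 : (1 : ℝ) ≤ (k / 2) * (1 - ((k : ℝ) - 2) * s) := by
      have h6 : (k / 2 : ℝ) * (2 / k) ≤ (k / 2) * (1 - ((k : ℝ) - 2) * s) :=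
        mul_le_mul_of_nonneg_left (by linarith) (by positivity)
      have h7 : (k / 2 : ℝ) * (2 / k) = 1 := by field_simp
      linarith
    have h6 : (0 : ℝ) ≤ (N : ℝ) ^ (1 - ((k : ℝ) - 2) * s) := by positivity
    calc (N : ℝ) ^ (1 - ((k : ℝ) - 2) * s) = 1 * (N : ℝ) ^ (1 - ((k : ℝ) - 2) * s) := (one_mul _).symm
      _ ≤ ((k / 2) * (1 - ((k : ℝ) - 2) * s)) * (N : ℝ) ^ (1 - ((k : ℝ) - 2) * s) :=
          mul_le_mul_of_nonneg_right h5 h6
      _ = _ := by ring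
  have h5 : (∑ x ∈ Icc 1 N, (x : ℝ) ^ (-(((k : ℝ) - 2) * s))) * (16 * (N : ℝ) ^ (2 - 2 * s)) ≤
      8 * k * (N : ℝ) ^ (3 - k * s) := by
    calc _ ≤ ((k / 2 : ℝ) * (N : ℝ) ^ (1 - ((k : ℝ) - 2) * s)) * (16 * (N : ℝ) ^ (2 - 2 * s)) :=
          mul_le_mul_of_nonneg_right (h3.trans h4) (by positivity)
      _ = 8 * k * ((N : ℝ) ^ (1 - ((k : ℝ) - 2) * s) * (N : ℝ) ^ (2 - 2 * s)) := by ring
      _ = _ := by
          rw [← Real.rpow_add hN0]
          congr 2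
          ring
  have h6 := mul_le_mul_of_nonneg_left h5 hK
  have h7 : K * (8 * k * (N : ℝ) ^ (3 - k * s)) = 8 * k * K * (N : ℝ) ^ (3 - k * s) := by ring
  linarith

end Pool.Agent.R461.MF
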